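import Mathlib
import Pool.Agent.R992.PI.Gen

/-! Unramified period-index for abelian varieties: Fedder's criterion for the Euler form. -/

set_option autoImplicit false
set_option linter.all false

namespace Pool.Agent.Results.MP_43d240_ag.FedderCriterion

open Pool.Agent.Helper18.Br Pool.Agent.H552R3.SymBr Pool.Agent.H552R3.SymPred Pool.Agent.R992.PI

universe u

/-- Let `K` be an extension of an algebraically closed field `k`, let `n` be squarefree, let `ζ ∈ K` be a primitive
`n`-th root of unity and let `(a, b)` denote symbols of degree `n` over `K`.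

Let `G_r` be a subgroup of `Kˣ` generated by `kˣ` and `2 g' > 0` elements `z'_a`, let `w'_1, ..., w'_t` be integral
matrices with `∑ w'_j(a,b) (z'_a, z'_b) = 0` (symbols with an entry in `kˣ` vanish), and let `P'`, an integral form
of degree `g'`, be the Pfaffian of their generic combination, `P' ^ 2 = det (∑_j X_j (w'_j - w'_jᵀ))`. Suppose that
`P' ^ (p - 1)` does not lie in the ideal `(p, X_1 ^ p, ..., X_t ^ p)` for all prime divisors `p` of `n` (Fedder's
criterion for the ring defined by `P'` modulo `p` to be `F`-pure). Let moreover `G_0 ⊇ G_1 ⊇ ... ⊇ G_r` be subgroups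
such that `G_{i-1}` is generated by `G_i` and `2 g_i` elements `z_{ia}`, with integral matrices `w_{ij}` such that the
class `∑ w_{ij}(a,b) (z_{ia}, z_{ib})` is a combination of symbols with one entry in `G_i` and the other one in
`G_i ∪ z_i`, and with Pfaffian form `P_i ∉ (p, X_1 ^ p, ..., X_t ^ p)` for all prime divisors `p` of `n` (the case
`r = 0` is included). Then every class generated by symbols with entries in `G_0` is the sum of
`g_1 + ... + g_r + g' - 1` symbols, and its index divides `n ^ (g_1 + ... + g_r + g' - 1)`. -/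
theorem result {k K : Type u} [Field k] [IsAlgClosed k] [Field K] [Algebra k K] (n : ℕ) (hn : Squarefree n)
    (ζ : K) (hζ : IsPrimitiveRoot ζ n) (r : ℕ) (G : Fin (r + 1) → Subgroup Kˣ)
    (g t : Fin r → ℕ) (P : ∀ i, MvPolynomial (Fin (t i)) ℤ)
    (hB : ∀ i : Fin r, Block n ζ (G i.succ) (G i.castSucc) (g i) (P i))
    (hm : ∀ i, ∀ p : ℕ, p.Prime → p ∣ n → NotInFrob p (P i))
    (g' t' : ℕ) (hg' : 0 < g') (P' : MvPolynomial (Fin t') ℤ)
    (hB' : Block n ζ (Units.map (algebraMap k K).toMonoidHom).range (G (Fin.last r)) g' P')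
    (hm' : ∀ p : ℕ, p.Prime → p ∣ n → NotInFrob p (P' ^ (p - 1)))
    (α : BrauerGroup.{u, u} K) (hα : α ∈ SymGrp n ζ (G 0)) :
    SumOfSymbols n ζ (∑ i, g i + (g' - 1)) ⊥ α ∧ IndDvd α (n ^ (∑ i, g i + (g' - 1))) := by
  have hneg : -1 ∈ G (Fin.last r) := by
    obtain ⟨I, _, _, z, θ, w, -, hG, -⟩ := hB'
    rw [hG]
    refine Subgroup.mem_sup_left ⟨-1, ?_⟩
    ext
    simp
  obtain ⟨-, -, -, h4⟩ := general (k := k) n (Nat.pos_of_ne_zero hn.ne_zero) ζ hζ r G hneg g t P hB hm α hα
  exact h4 hn g' t' P' hg' hB' hm'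

end Pool.Agent.Results.MP_43d240_ag.FedderCriterion
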