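import Mathlib
import Pool.Agent.R992.PI.Gen

/-! Unramified period-index for curves times products of abelian varieties: a Frobenius power criterion. -/

set_option autoImplicit false
set_option linter.all false

namespace Pool.Agent.Results.MP_43d240_ag.FrobeniusPowerCriterion

open Pool.Agent.Helper18.Br Pool.Agent.H552R3.SymBr Pool.Agent.H552R3.SymPred Pool.Agent.R992.PI

universe u

/-- Let `K` be an extension of an algebraically closed field `k`, let `ζ ∈ K` be a primitive `n`-th root of
unity and let `(a, b)` denote symbols of degree `n` over `K`.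

Let `G_0 ⊇ G_1 ⊇ ... ⊇ G_r ∋ -1` be subgroups of `Kˣ` such that `G_{i-1}` is generated by `G_i` and a family
`z_i` of `2 g_i` elements (block `i`). For each block let `w_{i1}, ..., w_{it}` be integral matrices such that
the class `∑ w_{ij}(a,b) (z_{ia}, z_{ib})` is a combination of symbols with one entry in `G_i` and the other one
in `G_i ∪ z_i` (relations between the symbols of the block modulo lower terms), and let `P_i`, an integral form of
degree `g_i` in `t` variables, be the Pfaffian of the generic combination, i.e.
`P_i ^ 2 = det (∑_j X_j (w_{ij} - w_{ij}ᵀ))`. Suppose that, for all prime divisors `p` of `n` and all `i`, the form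
`P_i` does not lie in the ideal `(p, X_1 ^ p, ..., X_t ^ p)`, i.e. has a monomial whose exponents are all smaller
than `p` with coefficient prime to `p`. Put `N = g_1 + ... + g_r`. Then every class `α` generated by symbols with
entries in `G_0` is the sum of `N` symbols and a class generated by symbols with entries in `G_r`; if the index
of all classes generated by symbols with entries in `G_r` divides `m`, then the index of `α` divides `m * n ^ N`;
if `G_r` is contained in an intermediate field of transcendence degree at most one over `k`, then the index of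
`α` divides `n ^ N`.

(If the `w_j` are the Riemann forms of divisor classes `D_j` on an abelian variety of dimension `g`, then
`P = χ(∑ X_j D_j)`, and `P ∉ (p, X_1 ^ p, ..., X_t ^ p)` says that some `g`-fold intersection number of the `D_j`
is prime to `p`.) -/
theorem result {k K : Type u} [Field k] [IsAlgClosed k] [Field K] [Algebra k K] (n : ℕ) (hn : 0 < n)
    (ζ : K) (hζ : IsPrimitiveRoot ζ n) (r : ℕ) (G : Fin (r + 1) → Subgroup Kˣ)
    (hneg : -1 ∈ G (Fin.last r)) (g t : Fin r → ℕ) (P : ∀ i, MvPolynomial (Fin (t i)) ℤ)
    (hB : ∀ i : Fin r, Block n ζ (G i.succ) (G i.castSucc) (g i) (P i))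
    (hm : ∀ i, ∀ p : ℕ, p.Prime → p ∣ n → NotInFrob p (P i))
    (α : BrauerGroup.{u, u} K) (hα : α ∈ SymGrp n ζ (G 0)) :
    SumOfSymbols n ζ (∑ i, g i) (SymGrp n ζ (G (Fin.last r))) α ∧
    (∀ m : ℕ, 0 < m → (∀ β ∈ SymGrp n ζ (G (Fin.last r)), IndDvd β m) → IndDvd α (m * n ^ ∑ i, g i)) ∧
    (∀ L : IntermediateField k K, (∀ a ∈ G (Fin.last r), (a : K) ∈ L) → Algebra.trdeg k L ≤ 1 →
      IndDvd α (n ^ ∑ i, g i)) := by
  obtain ⟨h1, h2, h3, -⟩ := general (k := k) n hn ζ hζ r G hneg g t P hB hm α hα
  exact ⟨h1, h2, h3⟩

end Pool.Agent.Results.MP_43d240_ag.FrobeniusPowerCriterion
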