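import Mathlib
import Pool.Agent.R992.PI.Inx

/-! Unramified period-index for curves times abelian varieties: the bound by intersection numbers of divisors. -/

set_option autoImplicit false
set_option linter.all false

open scoped TensorProduct

namespace Pool.Agent.Results.MP_43d240_ag.IntersectionNumberBound

open Pool.Agent.Helper18.Br Pool.Agent.H552R3.SymBr Pool.Agent.H552R3.SymPred Pool.Agent.H552R3.Tsen
  Pool.Agent.Y109.PI Pool.Agent.R992.PI

universe u

/-- The number `m_1! ... m_t! * (coefficient of X ^ m in P)`; if `P = χ(∑ X_j D_j)` for divisor classes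
`D_1, ..., D_t` on an abelian variety of dimension `g = m_1 + ... + m_t`, it is the intersection number
`D_1 ^ m_1 ... D_t ^ m_t`. -/
def mixedNumber {t : ℕ} (P : MvPolynomial (Fin t) ℤ) (m : Fin t →₀ ℕ) : ℤ :=
  (∏ j, ((m j).factorial : ℤ)) * P.coeff m

/-- `P` is the Pfaffian of the generic combination of the matrices `w_j - w_jᵀ`, up to sign:
`P ^ 2 = det (∑_j X_j (w_j - w_jᵀ))`. -/
def IsPfaffian {I : Type} [Fintype I] [DecidableEq I] {t : ℕ} (w : Fin t → I → I → ℤ)
    (P : MvPolynomial (Fin t) ℤ) : Prop :=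
  P ^ 2 = (Matrix.of fun a b => ∑ j, MvPolynomial.C (w j a b - w j b a) * MvPolynomial.X j :
    Matrix I I (MvPolynomial (Fin t) ℤ)).det

/-- Let `K` be an extension of an algebraically closed field `k`, let `ζ ∈ k` be a primitive `n`-th root of
unity, `L` an intermediate field, and let `z_a` (`a ∈ I`) be `2 g` nonzero elements of `K`. Let `w_1, ..., w_t` be
integral matrices such that each class `∑ w_j(a,b) (z_a, z_b)` is a combination of symbols `(a, b)` of degree `n`
with `a ∈ L` and `b ∈ L ∪ {z_a}`, and let `P`, an integral form of degree `g` in `t` variables, be the Pfaffian of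
their generic combination, `P ^ 2 = det (∑_j X_j (w_j - w_jᵀ))`. Let `d` be a positive integer such that for every
prime divisor `p` of `n` there is a monomial `X ^ m` for which `m_1! ... m_t! * (coefficient of X ^ m in P)` is not
divisible by `p ^ (v_p(d) + 1)` (for example `d` can be the absolute value of any such number if it is nonzero, or the
greatest common divisor of all of them). Let `α` be a class in the subgroup of `Br(K)` generated by all symbols of
degree `n` with entries in the group generated by `Lˣ` and the `z_a`. Then: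
(1) if `L` has transcendence degree at most one over `k`, then the index of `α` divides `n ^ g * d`;
(2) if `L` has transcendence degree at most `e` over `k` and if, over every extension of `k` of transcendence
degree at most `e`, the index of all classes generated by symbols of degree `n` divides `m`, then the index
of `α` divides `m * (n ^ g * d)`. -/
theorem result {k K : Type u} [Field k] [IsAlgClosed k] [Field K] [Algebra k K] (n : ℕ) (hn : 0 < n)
    (ζ : k) (hζ : IsPrimitiveRoot ζ n) (L : IntermediateField k K) (g t : ℕ)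
    (I : Type) [Fintype I] [DecidableEq I] (hI : Fintype.card I = 2 * g) (z : I → Kˣ)
    (θ : I → I → BrauerGroup.{u, u} K) (hθ : ∀ a b, IsSym n (algebraMap k K ζ) (z a) (z b) (θ a b))
    (w : Fin t → I → I → ℤ)
    (hw : ∀ j, ∏ a, ∏ b, θ a b ^ w j a b ∈ Subgroup.closure {γ | ∃ a b : Kˣ, (a : K) ∈ L ∧
      ((b : K) ∈ L ∨ b ∈ Set.range z) ∧ IsSym n (algebraMap k K ζ) a b γ})
    (P : MvPolynomial (Fin t) ℤ) (hP : IsPfaffian w P) (d : ℕ) (hd : 0 < d)
    (hdP : ∀ p : ℕ, p.Prime → p ∣ n → ∃ m : Fin t →₀ ℕ, ¬ (p : ℤ) ^ (d.factorization p + 1) ∣ mixedNumber P m)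
    (G : Subgroup Kˣ) (hG : G = Subgroup.closure ({a : Kˣ | (a : K) ∈ L} ∪ Set.range z))
    (α : BrauerGroup.{u, u} K)
    (hα : α ∈ Subgroup.closure {γ | ∃ a ∈ G, ∃ b ∈ G, IsSym n (algebraMap k K ζ) a b γ}) :
    (Algebra.trdeg k L ≤ 1 → IndDvd α (n ^ g * d)) ∧
    (∀ e m : ℕ, 0 < m → Algebra.trdeg k L ≤ e →
      (∀ (M : Type u) [Field M] [Algebra k M], Algebra.trdeg k M ≤ e →
        ∀ β ∈ Subgroup.closure {γ : BrauerGroup.{u, u} M | ∃ a b : Mˣ, IsSym n (algebraMap k M ζ) a b γ},
        IndDvd β m) →
      IndDvd α (m * (n ^ g * d))) := by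
  have hK := rootK K hζ
  -- the subgroup `H = Lˣ`
  let H : Subgroup Kˣ :=
    { carrier := {x : Kˣ | (x : K) ∈ L}
      mul_mem' := fun {a b} ha hb => by
        change ((a * b : Kˣ) : K) ∈ L
        rw [Units.val_mul]; exact L.mul_mem ha hb
      one_mem' := L.one_mem
      inv_mem' := fun {a} ha => by
        change ((a⁻¹ : Kˣ) : K) ∈ L
        rw [Units.val_inv_eq_inv_val]; exact L.inv_mem ha }
  have hGH : G = H ⊔ Subgroup.closure (Set.range z) := by
    rw [hG, Subgroup.closure_union]
    congr 1
    exact Subgroup.closure_eq H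
  have hα' : α ∈ Subgroup.closure {γ | ∃ a ∈ H ⊔ Subgroup.closure (Set.range z),
      ∃ b ∈ H ⊔ Subgroup.closure (Set.range z), γ = symHom hn hK a b} := by
    have : {γ | ∃ a ∈ G, ∃ b ∈ G, IsSym n (algebraMap k K ζ) a b γ} =
        {γ | ∃ a ∈ H ⊔ Subgroup.closure (Set.range z),
      ∃ b ∈ H ⊔ Subgroup.closure (Set.range z), γ = symHom hn hK a b} := by
      ext γ
      simp only [Set.mem_setOf_eq, isSym_iff hn hK, hGH, symHom_apply]
    rw [← this]; exact hα
  have hrel : ∀ j, Q (symHom hn hK) z (w j) ∈ low (symHom hn hK) H (VL hn hζ K L) z := by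
    intro j
    have h1 : Q (symHom hn hK) z (w j) = ∏ a, ∏ b, θ a b ^ w j a b := by
      rw [Q, Fintype.prod_prod_type]
      refine Finset.prod_congr rfl fun a _ => Finset.prod_congr rfl fun b _ => ?_
      rw [(isSym_iff hn hK (z a) (z b) (θ a b)).1 (hθ a b), symHom_apply]
    rw [h1]
    refine (Subgroup.closure_le (low (symHom hn hK) H (VL hn hζ K L) z)).2 ?_ (hw j)
    rintro γ ⟨a, b, ha, hb, hab⟩
    rw [isSym_iff hn hK] at hab
    subst hab
    rcases hb with hb | ⟨i, rfl⟩
    · exact low_V (symHom hn hK) (Subgroup.subset_closure ⟨a, b, ha, hb, rfl⟩)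
    · exact low_sym (symHom hn hK) (V := VL hn hζ K L) (z := z) (H := H) ha i
  -- Tsen
  have hbase1 : Base hn hζ 1 1 := by
    intro M _ _ hM β hβ
    have hle : Subgroup.closure {γ : BrauerGroup.{u, u} M | ∃ a b : Mˣ, γ = symCl hn (rootK M hζ) a b} ≤ ⊥ := by
      rw [Subgroup.closure_le]
      rintro γ ⟨a, b, rfl⟩
      have hdep : ¬ AlgebraicIndependent k ![(a : M), (b : M)] := by
        intro h
        have h2 := h.lift_cardinalMk_le_trdeg
        have h3 := h2.trans (Cardinal.lift_le.2 hM)
        simp at h3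
      rw [SetLike.mem_coe, Subgroup.mem_bot]
      exact tsen hn hζ a b hdep
    have h6 := hle hβ
    rw [Subgroup.mem_bot] at h6
    subst h6
    exact hasRep_one.indDvd
  -- the general bound
  have main : ∀ e m : ℕ, 0 < m → Algebra.trdeg k L ≤ e → Base hn hζ e m →
      IndDvd α (m * (n ^ g * d)) := fun e m hm hL hbase =>
    index_int hn hζ hm hbase L hL H (fun a => Iff.rfl) z g hI w hrel P hP d hd hdP α hα'
  refine ⟨fun hL => ?_, fun e m hm hL hb => ?_⟩
  · have h1 := main 1 1 one_pos (by exact_mod_cast hL) hbase1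
    rwa [one_mul] at h1
  · refine main e m hm hL fun M _ _ hM β hβ => hb M hM β ?_
    have : {γ : BrauerGroup.{u, u} M | ∃ a b : Mˣ, γ = symCl hn (rootK M hζ) a b} =
        {γ : BrauerGroup.{u, u} M | ∃ a b : Mˣ, IsSym n (algebraMap k M ζ) a b γ} := by
      ext γ
      simp only [Set.mem_setOf_eq, isSym_iff hn (rootK M hζ)]
    rw [← this]; exact hβ

end Pool.Agent.Results.MP_43d240_ag.IntersectionNumberBound
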