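import Mathlib
import Pool.Agent.R992.PI.Gen

/-! Unramified period-index for curves times products of abelian varieties with real multiplication. -/

set_option autoImplicit false
set_option linter.all false

namespace Pool.Agent.Results.MP_43d240_ag.RealMultiplicationProducts

open Pool.Agent.Helper18.Br Pool.Agent.H552R3.SymBr Pool.Agent.H552R3.SymPred Pool.Agent.R992.PI

universe u v

/-- The group `H'` is generated by `H` and `2 e h` elements `x_{kc}`, `y_{kc}` (`k ≤ e`, `c ≤ h`) such that for each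
element `ε_i` of the basis the class `∑_c ∑_{k,l} Tr(ε_i ε_k ε_l) (x_{kc}, y_{lc})` is a combination of symbols of
degree `n` with one entry in `H` and the other one in `H` or among the `x_{kc}`, `y_{kc}`. -/
def RMBlock {K : Type u} [Field K] (n : ℕ) (ζ : K) (H H' : Subgroup Kˣ) {O : Type v} [CommRing O] {e : ℕ}
    (ε : Module.Basis (Fin e) ℤ O) (h : ℕ) : Prop :=
  ∃ (x y : Fin e × Fin h → Kˣ) (θ : Fin e → Fin e → Fin h → BrauerGroup.{u, u} K),
    H' = H ⊔ Subgroup.closure (Set.range x ∪ Set.range y) ∧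
    (∀ k l c, IsSym n ζ (x (k, c)) (y (l, c)) (θ k l c)) ∧
    ∀ i, ∏ c, ∏ k, ∏ l, θ k l c ^ (Algebra.trace ℤ O (ε i * ε k * ε l)) ∈
      Subgroup.closure {γ | ∃ a ∈ H, ∃ b : Kˣ, (b ∈ H ∨ b ∈ Set.range x ∪ Set.range y) ∧ IsSym n ζ a b γ}

theorem RMBlock.block {K : Type u} [Field K] {n : ℕ} (hn : 0 < n) {ζ : K} (hζ : IsPrimitiveRoot ζ n)
    {H H' : Subgroup Kˣ} {O : Type v} [CommRing O] {e : ℕ} {ε : Module.Basis (Fin e) ℤ O} {h : ℕ}
    (hB : RMBlock n ζ H H' ε h) : ∃ P : MvPolynomial (Fin e) ℤ, IsPfaffian (traceCopies ε h) P ∧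
      Block n ζ H H' (e * h) P := by
  obtain ⟨x, y, θ, hH, hθ, hrel⟩ := hB
  have hcard : Fintype.card ((Fin e × Fin h) ⊕ (Fin e × Fin h)) = 2 * (e * h) := by
    simp [two_mul]
  obtain ⟨P, hP⟩ := exists_pfaffian (e * h) hcard (traceCopies ε h)
  have hrange : Set.range (Sum.elim x y) = Set.range x ∪ Set.range y := Set.Sum.elim_range x y
  refine ⟨P, hP, (Fin e × Fin h) ⊕ (Fin e × Fin h), inferInstance, inferInstance, Sum.elim x y,
    fun a b => symCl hn hζ (Sum.elim x y a) (Sum.elim x y b), traceCopies ε h, hcard, ?_,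
    fun a b => (isSym_iff hn hζ _ _ _).2 rfl, fun j => ?_, hP⟩
  · rw [hrange]; exact hH
  · rw [hrange]
    have h1 : ∏ a, ∏ b, symCl hn hζ (Sum.elim x y a) (Sum.elim x y b) ^ traceCopies ε h j a b =
        ∏ c, ∏ k, ∏ l, θ k l c ^ (Algebra.trace ℤ O (ε j * ε k * ε l)) := by
      rw [Fintype.prod_sum_type]
      have h2 : ∏ a : Fin e × Fin h, ∏ b, symCl hn hζ (Sum.elim x y (Sum.inr a)) (Sum.elim x y b) ^
          traceCopies ε h j (Sum.inr a) b = 1 := by
        refine Finset.prod_eq_one fun a _ => Finset.prod_eq_one fun b _ => ?_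
        have h3 : traceCopies ε h j (Sum.inr a) b = 0 := by rcases b with b | b <;> rfl
        rw [h3, zpow_zero]
      rw [h2, mul_one, Fintype.prod_prod_type, Finset.prod_comm]
      refine Finset.prod_congr rfl fun c _ => Finset.prod_congr rfl fun k _ => ?_
      rw [Fintype.prod_sum_type]
      have h4 : ∏ b : Fin e × Fin h, symCl hn hζ (Sum.elim x y (Sum.inl (k, c))) (Sum.elim x y (Sum.inl b)) ^
          traceCopies ε h j (Sum.inl (k, c)) (Sum.inl b) = 1 := by
        refine Finset.prod_eq_one fun b _ => ?_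
        have h3 : traceCopies ε h j (Sum.inl (k, c)) (Sum.inl b) = 0 := rfl
        rw [h3, zpow_zero]
      rw [h4, one_mul, Fintype.prod_prod_type]
      refine Finset.prod_congr rfl fun l _ => ?_
      rw [Finset.prod_eq_single c]
      · have h3 : traceCopies ε h j (Sum.inl (k, c)) (Sum.inr (l, c)) = Algebra.trace ℤ O (ε j * ε k * ε l) := by
          simp [traceCopies]
        rw [h3, (isSym_iff hn hζ _ _ _).1 (hθ k l c)]
        rfl
      · intro c' _ hc'
        have h3 : traceCopies ε h j (Sum.inl (k, c)) (Sum.inr (l, c')) = 0 := by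
          simp [traceCopies, hc'.symm]
        rw [h3, zpow_zero]
      · intro hc
        exact absurd (Finset.mem_univ _) hc
    rw [h1]
    exact hrel j

/-- Let `K` be an extension of an algebraically closed field `k`, let `ζ ∈ K` be a primitive `n`-th root of
unity and let `(a, b)` denote symbols of degree `n` over `K`.

For `1 ≤ i ≤ r` let `O_i` be a commutative ring which is free of rank `e_i` over `ℤ` with basis `ε_{i1}, ε_{i2}, ...`
(for instance the ring of integers of a totally real field), and let `h_i ≥ 0` be such that every prime divisor `p`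
of `n` is larger than `h_i` and does not divide the discriminant of `O_i`. Let `G_0 ⊇ G_1 ⊇ ... ⊇ G_r ∋ -1` be
subgroups of `Kˣ` such that `G_{i-1}` is generated by `G_i` and `2 e_i h_i` elements `x_{kc}`, `y_{kc}`
(`k ≤ e_i`, `c ≤ h_i`) for which the classes `∑_c ∑_{k,l} Tr(ε_{ij} ε_{ik} ε_{il}) (x_{kc}, y_{lc})`
(`1 ≤ j ≤ e_i`) are combinations of symbols with one entry in `G_i` and the other one in `G_i` or among the
`x_{kc}`, `y_{kc}` (the relations of real multiplication by `O_i` on an abelian variety of dimension `e_i h_i`).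
Put `N = e_1 h_1 + ... + e_r h_r`. Then every class `α` generated by symbols with entries in `G_0` is the sum of `N`
symbols and a class generated by symbols with entries in `G_r`; if the index of all classes generated by symbols
with entries in `G_r` divides `m`, then the index of `α` divides `m * n ^ N`; if `G_r` is contained in an
intermediate field of transcendence degree at most one over `k`, then the index of `α` divides `n ^ N`. -/
theorem result {k K : Type u} [Field k] [IsAlgClosed k] [Field K] [Algebra k K] (n : ℕ) (hn : 0 < n)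
    (ζ : K) (hζ : IsPrimitiveRoot ζ n) (r : ℕ) (G : Fin (r + 1) → Subgroup Kˣ)
    (hneg : -1 ∈ G (Fin.last r)) (e h : Fin r → ℕ) (O : Fin r → Type v) [∀ i, CommRing (O i)]
    (ε : ∀ i, Module.Basis (Fin (e i)) ℤ (O i))
    (hn' : ∀ i, ∀ p : ℕ, p.Prime → p ∣ n → h i < p ∧ ¬ (p : ℤ) ∣ Algebra.discr ℤ (ε i))
    (hB : ∀ i : Fin r, RMBlock n ζ (G i.succ) (G i.castSucc) (ε i) (h i))
    (α : BrauerGroup.{u, u} K) (hα : α ∈ SymGrp n ζ (G 0)) :
    SumOfSymbols n ζ (∑ i, e i * h i) (SymGrp n ζ (G (Fin.last r))) α ∧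
    (∀ m : ℕ, 0 < m → (∀ β ∈ SymGrp n ζ (G (Fin.last r)), IndDvd β m) → IndDvd α (m * n ^ ∑ i, e i * h i)) ∧
    (∀ L : IntermediateField k K, (∀ a ∈ G (Fin.last r), (a : K) ∈ L) → Algebra.trdeg k L ≤ 1 →
      IndDvd α (n ^ ∑ i, e i * h i)) := by
  choose P hP hblock using fun i => (hB i).block hn hζ
  obtain ⟨h1, h2, h3, -⟩ := general (k := k) n hn ζ hζ r G hneg (fun i => e i * h i) e P hblock
    (fun i p hp hpn => by
      haveI : Fact p.Prime := ⟨hp⟩
      have ew : traceCopies (ε i) (h i) = cpw (ε i) (h i) := by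
        funext j a b
        rcases a with a | a <;> rcases b with b | b <;> rfl
      have hP' := hP i
      rw [ew] at hP'
      exact cop_mono (ε i) (h i) p (hn' i p hp hpn).1 (hn' i p hp hpn).2 (P i) hP') α hα
  exact ⟨h1, h2, h3⟩

end Pool.Agent.Results.MP_43d240_ag.RealMultiplicationProducts
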